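import Mathlib
import Pool.Agent.W973.IP.Defs

/-!
# Project IP, part IND: iterated square roots of two satisfy no relation of small degree
-/

set_option autoImplicit false

namespace Pool.Agent.W571.IP

open Pool.Agent.W973.IP

/-- Kronecker substitution -/
theorem kron {A : Type} [Fintype A] {b m : ℕ} {ix : A → ℕ} (hinj : Function.Injective ix)
    (hlt : ∀ x, ix x < m) :
    (∀ γ : A → ℕ, (∀ x, γ x < 2 ^ b) → ∑ x, γ x * (2 ^ b) ^ ix x < (2 ^ b) ^ m) ∧
    ∀ γ γ' : A → ℕ, (∀ x, γ x < 2 ^ b) → (∀ x, γ' x < 2 ^ b) →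
      ∑ x, γ x * (2 ^ b) ^ ix x = ∑ x, γ' x * (2 ^ b) ^ ix x → γ = γ' := by
  classical
  have hpos : 0 < 2 ^ b := by positivity
  let ι : A → Fin m := fun x => ⟨ix x, hlt x⟩
  have hι : Function.Injective ι := fun x y h => hinj (by simpa [ι] using h)
  let f : (γ : A → ℕ) → (∀ x, γ x < 2 ^ b) → Fin m → Fin (2 ^ b) := fun γ h =>
    Function.extend ι (fun x => ⟨γ x, h x⟩) (fun _ => ⟨0, hpos⟩)
  have hf : ∀ γ h x, f γ h (ι x) = ⟨γ x, h x⟩ := fun γ h x =>
    hι.extend_apply _ _ x
  have hsum : ∀ γ h, ∑ x, γ x * (2 ^ b) ^ ix x = (finFunctionFinEquiv (f γ h) : ℕ) := by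
    intro γ h
    rw [finFunctionFinEquiv_apply]
    refine Fintype.sum_of_injective ι hι _ _ ?_ ?_
    · intro i hi
      have : f γ h i = ⟨0, hpos⟩ := Function.extend_apply' _ _ _ (by
        rintro ⟨x, hx⟩
        exact hi ⟨x, hx⟩)
      rw [this]
      simp
    · intro x
      rw [hf]
  refine ⟨fun γ h => ?_, fun γ γ' h h' he => ?_⟩
  · rw [hsum γ h]
    exact (finFunctionFinEquiv (f γ h)).2
  · rw [hsum γ h, hsum γ' h'] at he
    have h1 := finFunctionFinEquiv.injective (Fin.ext he)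
    funext x
    have h2 := congrFun h1 (ι x)
    rw [hf, hf] at h2
    simpa using h2

theorem rt_pow (b m i : ℕ) (hi : i < m) : rt (b * m) ^ ((2 ^ b) ^ i) = rt (b * (m - i)) := by
  unfold rt
  rw [← Real.rpow_natCast, ← Real.rpow_mul (by norm_num)]
  congr 1
  push_cast
  obtain ⟨d, rfl⟩ := Nat.exists_eq_add_of_le hi.le
  rw [show i + d - i = d by omega, mul_add, pow_add, one_div, inv_pow, inv_pow]
  rw [← pow_mul]
  field_simp

theorem rt_root (n : ℕ) : rt n ^ (2 ^ n) = 2 := by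
  unfold rt
  rw [← Real.rpow_natCast, ← Real.rpow_mul (by norm_num)]
  push_cast
  rw [one_div, inv_pow, inv_mul_cancel₀ (by positivity), Real.rpow_one]

theorem irr (N : ℕ) (hN : N ≠ 0) : Irreducible (Polynomial.X ^ N - Polynomial.C (2 : ℤ)) := by
  have hmon := Polynomial.monic_X_pow_sub_C (2 : ℤ) hN
  refine Polynomial.irreducible_of_eisenstein_criterion (P := Ideal.span {(2 : ℤ)}) ?_ ?_ ?_ ?_ ?_ ?_
  · exact (Ideal.span_singleton_prime (by norm_num)).2 Int.prime_two
  · rw [hmon.leadingCoeff, Ideal.mem_span_singleton]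
    norm_num
  · intro n hn
    rw [Polynomial.degree_X_pow_sub_C (Nat.pos_of_ne_zero hN)] at hn
    have hn' : n < N := by exact_mod_cast hn
    rw [Polynomial.coeff_sub, Polynomial.coeff_X_pow, if_neg (by omega), Ideal.mem_span_singleton,
      zero_sub, dvd_neg, Polynomial.coeff_C]
    split_ifs <;> norm_num
  · rw [Polynomial.degree_X_pow_sub_C (Nat.pos_of_ne_zero hN)]
    exact_mod_cast Nat.pos_of_ne_zero hN
  · rw [Polynomial.coeff_sub, Polynomial.coeff_X_pow, if_neg (by omega), Polynomial.coeff_C_zero,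
      Ideal.span_singleton_pow, Ideal.mem_span_singleton]
    norm_num
  · exact hmon.isPrimitive

theorem no_root (n : ℕ) (p : Polynomial ℚ) (hp : p ≠ 0) (hd : p.natDegree < 2 ^ n) :
    Polynomial.aeval (rt n) p ≠ 0 := by
  intro h0
  have hN : 2 ^ n ≠ 0 := by positivity
  have h1 := (Polynomial.IsPrimitive.Int.irreducible_iff_irreducible_map_cast
    (Polynomial.monic_X_pow_sub_C (2 : ℤ) hN).isPrimitive).1 (irr (2 ^ n) hN)
  have h2 : (Polynomial.X ^ (2 ^ n) - Polynomial.C (2 : ℤ)).map (Int.castRingHom ℚ) =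
      Polynomial.X ^ (2 ^ n) - Polynomial.C (2 : ℚ) := by
    rw [Polynomial.map_sub, Polynomial.map_pow, Polynomial.map_X, Polynomial.map_C]
    rfl
  rw [h2] at h1
  have hmin := minpoly.eq_of_irreducible_of_monic h1 (x := rt n) (by
    simp [rt_root]) (Polynomial.monic_X_pow_sub_C (2 : ℚ) hN)
  have hdvd := minpoly.dvd ℚ (rt n) h0
  rw [← hmin] at hdvd
  refine hp (Polynomial.eq_zero_of_dvd_of_natDegree_lt hdvd ?_)
  rw [Polynomial.natDegree_X_pow_sub_C]
  exact hd

theorem ind : S_IND := by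
  classical
  intro A ξ _ _ b m ix hinj hlt R hR hdeg
  obtain ⟨hk1, hk2⟩ := kron (b := b) hinj hlt
  set α := rt (b * m) with hα
  set a : A → ℝ := fun x => rt (b * (m - ix x)) with ha
  have haα : ∀ x, a x = α ^ ((2 ^ b) ^ ix x) := fun x => (rt_pow b m (ix x) (hlt x)).symm
  -- the exponents
  let e : ((A ⊕ ξ) →₀ ℕ) → ℕ := fun s => ∑ x, s (Sum.inl x) * (2 ^ b) ^ ix x
  have hsd : ∀ s ∈ R.support, ∀ x, s (Sum.inl x) < 2 ^ b := fun s hs x =>
    lt_of_le_of_lt (MvPolynomial.monomial_le_degreeOf _ hs) (hdeg x)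
  have hae : ∀ s : (A ⊕ ξ) →₀ ℕ, ∏ x, a x ^ s (Sum.inl x) = α ^ e s := by
    intro s
    rw [← Finset.prod_pow_eq_pow_sum]
    refine Finset.prod_congr rfl fun x _ => ?_
    rw [haα, ← pow_mul, mul_comm]
  let ρ : ((A ⊕ ξ) →₀ ℕ) → (ξ →₀ ℕ) := fun s => s.comapDomain Sum.inr Sum.inr_injective.injOn
  have hρ : ∀ s x, ρ s x = s (Sum.inr x) := fun s x => rfl
  let S : MvPolynomial ξ ℝ := ∑ s ∈ R.support, MvPolynomial.monomial (ρ s)
    (((R.coeff s : ℚ) : ℝ) * ∏ x, a x ^ s (Sum.inl x))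
  have hcoef : ∀ β, S.coeff β = ∑ s ∈ R.support.filter (fun s => ρ s = β),
      ((R.coeff s : ℚ) : ℝ) * ∏ x, a x ^ s (Sum.inl x) := by
    intro β
    rw [MvPolynomial.coeff_sum, Finset.sum_filter]
    refine Finset.sum_congr rfl fun s _ => ?_
    rw [MvPolynomial.coeff_monomial]
  refine ⟨S, ?_, ?_, ?_⟩
  · obtain ⟨s₀, hs₀⟩ : R.support.Nonempty := by
      rw [Finset.nonempty_iff_ne_empty]
      intro h
      exact hR (MvPolynomial.support_eq_empty.1 h)
    intro hS
    have hc := hcoef (ρ s₀)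
    rw [hS, MvPolynomial.coeff_zero] at hc
    let p : Polynomial ℚ := ∑ s ∈ R.support.filter (fun s => ρ s = ρ s₀),
      Polynomial.monomial (e s) (R.coeff s)
    have hp : Polynomial.aeval α p = 0 := by
      rw [map_sum, hc]
      refine Finset.sum_congr rfl fun s _ => ?_
      rw [Polynomial.aeval_monomial, hae]
      rfl
    have hinje : ∀ s ∈ R.support.filter (fun s => ρ s = ρ s₀), e s = e s₀ → s = s₀ := by
      intro s hs he
      rw [Finset.mem_filter] at hs
      have h1 := hk2 (fun x => s (Sum.inl x)) (fun x => s₀ (Sum.inl x)) (hsd s hs.1)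
        (hsd s₀ hs₀) he
      ext y
      rcases y with x | x
      · exact congrFun h1 x
      · have := DFunLike.congr_fun hs.2 x
        rwa [hρ, hρ] at this
    have hpc : p.coeff (e s₀) = R.coeff s₀ := by
      rw [Polynomial.finsetSum_coeff, Finset.sum_eq_single s₀]
      · rw [Polynomial.coeff_monomial, if_pos rfl]
      · intro s hs hne
        rw [Polynomial.coeff_monomial, if_neg]
        intro he
        exact hne (hinje s hs he)
      · intro h
        exact (h (Finset.mem_filter.2 ⟨hs₀, rfl⟩)).elim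
    have hp0 : p ≠ 0 := by
      intro h
      rw [h, Polynomial.coeff_zero] at hpc
      exact (MvPolynomial.mem_support_iff.1 hs₀) hpc.symm
    have hpd : p.natDegree < 2 ^ (b * m) := by
      rw [pow_mul]
      refine lt_of_le_of_lt (Polynomial.natDegree_sum_le_of_forall_le (n := (2 ^ b) ^ m - 1) _ _ ?_) ?_
      · intro s hs
        rw [Finset.mem_filter] at hs
        refine (Polynomial.natDegree_monomial_le _).trans ?_
        have := hk1 (fun x => s (Sum.inl x)) (hsd s hs.1)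
        exact Nat.le_sub_one_of_lt this
      · have : 0 < (2 ^ b) ^ m := by positivity
        omega
    exact no_root (b * m) p hp0 hpd hp
  · intro x
    rw [MvPolynomial.degreeOf_le_iff]
    intro β hβ
    rw [MvPolynomial.mem_support_iff, hcoef] at hβ
    obtain ⟨s, hs, -⟩ := Finset.exists_ne_zero_of_sum_ne_zero hβ
    rw [Finset.mem_filter] at hs
    rw [← hs.2, hρ]
    exact MvPolynomial.monomial_le_degreeOf _ hs.1
  · intro z
    rw [MvPolynomial.aeval_def, MvPolynomial.aeval_def, MvPolynomial.eval₂_eq' _ _ R]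
    rw [MvPolynomial.eval₂_sum]
    refine Finset.sum_congr rfl fun s _ => ?_
    rw [MvPolynomial.eval₂_monomial, Finsupp.prod_fintype _ _ (fun _ => pow_zero _),
      Fintype.prod_sum_type]
    simp only [Sum.elim_inl, Sum.elim_inr, hρ]
    simp only [Algebra.algebraMap_self, RingHom.id_apply, eq_ratCast]
    rw [mul_assoc]

end Pool.Agent.W571.IP
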